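import Pool.Agent.H664.QK.Stm

/-!
Job UP of project QK (helper664): from dimension `d` to `d + 1`.
-/

set_option autoImplicit false

namespace Pool.Agent.H332.QK

open MvPolynomial Cardinal Pool.Agent.H664.QK

/-- `Tr` is invariant under injective homomorphisms -/
theorem tr_map {k Ω Ω' ι : Type} [Field k] [Field Ω] [Field Ω'] [Algebra k Ω] [Algebra k Ω']
    (f : Ω →ₐ[k] Ω') (w : ι → Ω) (d : ℕ) : Tr k (fun i => f (w i)) d ↔ Tr k w d := by
  unfold Tr
  constructor
  · rintro ⟨J, hJ, h⟩
    refine ⟨J, hJ, ?_⟩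
    exact (AlgHom.algebraicIndependent_iff f f.injective).mp h
  · rintro ⟨J, hJ, h⟩
    refine ⟨J, hJ, ?_⟩
    exact (AlgHom.algebraicIndependent_iff f f.injective).mpr h

theorem elim_map {Ω Ω' : Type} [Field Ω] [Field Ω'] (f : Ω →+* Ω') {n : ℕ} (x y : Fin n → Ω) :
    Sum.elim (fun i => f (x i)) (fun i => f (y i)) = fun i => f (Sum.elim x y i) := by
  funext i
  cases i <;> rfl

theorem actF_map {Ω Ω' : Type} [Field Ω] [Field Ω'] (f : Ω →+* Ω') {n : ℕ}
    (M : Matrix (Fin n) (Fin n) ℤ) (p : Fin n ⊕ Fin n → Ω) :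
    actF M (fun i => f (p i)) = fun i => f (actF M p i) := by
  funext i
  cases i with
  | inl i => simp [actF]
  | inr i => simp [actF]

/-- freeness and rotundity are invariant under injective homomorphisms -/
theorem frt_map {k Ω Ω' : Type} [Field k] [Field Ω] [Field Ω'] [Algebra k Ω] [Algebra k Ω']
    (f : Ω →ₐ[k] Ω') {n : ℕ} {x y : Fin n → Ω} (h : FRt k x y) :
    FRt k (fun i => f (x i)) (fun i => f (y i)) := by
  refine ⟨?_, ?_, ?_, ?_⟩
  · intro i hi
    exact h.y0 i ((map_eq_zero f).mp hi)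
  · intro m hm c hc
    apply h.add m hm c
    have : f (∑ j, (m j : Ω) * x j) = f (algebraMap k Ω c) := by
      rw [AlgHom.commutes, ← hc]
      simp
    exact f.injective this
  · intro m hm c hc
    apply h.mul m hm c
    have : f (∏ j, y j ^ m j) = f (algebraMap k Ω c) := by
      rw [AlgHom.commutes, ← hc]
      simp
    exact f.injective this
  · intro M
    have h1 := h.rot M
    have e1 : Sum.elim (fun i => f (x i)) (fun i => f (y i)) = fun i => f (Sum.elim x y i) :=
      elim_map (f : Ω →+* Ω') x y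
    rw [e1]
    have e2 : actF M (fun i => f (Sum.elim x y i)) = fun i => f (actF M (Sum.elim x y) i) :=
      actF_map (f : Ω →+* Ω') M _
    rw [e2]
    exact (tr_map f _ _).mpr h1

/-- from dimension `d` to dimension `d + 1` -/
theorem up (h1 : S_up1) (h2 : S_up2) (h3 : S_isox) : S_up := by
  intro n d hn hnd hF
  intro k Ω _ _ _ φ x y hfr htr hntr
  -- the field k
  have : IsAlgClosed k := IsAlgClosed.of_ringEquiv ℂ k φ.symm
  have hk𝔠 : #k = 𝔠 := by
    rw [Cardinal.mk_congr φ.toEquiv, Cardinal.mk_complex]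
  have : Uncountable k := by
    rw [← Cardinal.aleph0_lt_mk_iff, hk𝔠]
    exact Cardinal.aleph0_lt_continuum
  -- replace `Ω` by its algebraic closure
  let f : Ω →ₐ[k] AlgebraicClosure Ω := IsScalarTower.toAlgHom k Ω (AlgebraicClosure Ω)
  set x' : Fin n → AlgebraicClosure Ω := fun i => f (x i) with hx'
  set y' : Fin n → AlgebraicClosure Ω := fun i => f (y i) with hy'
  have exy : Sum.elim x' y' = fun i => f (Sum.elim x y i) := elim_map (f : Ω →+* AlgebraicClosure Ω) x y
  have hfr' : FRt k x' y' := frt_map f hfr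
  have htr' : Tr k (Sum.elim x' y') (d + 1) := by
    rw [exy]; exact (tr_map f _ _).mpr htr
  have hntr' : ¬ Tr k (Sum.elim x' y') (d + 2) := by
    rw [exy]; exact fun h => hntr ((tr_map f _ _).mp h)
  obtain ⟨u, hu, hu2⟩ := h1 n d k (AlgebraicClosure Ω) x' y' htr'
  obtain ⟨k₁, _, _, _, a, ha, hcard, hfr1, htr1, hntr1⟩ :=
    h2 n d k (AlgebraicClosure Ω) x' y' u hn hnd hfr' htr' hntr' hu hu2
  have hk1 : #k₁ = 𝔠 := by
    apply le_antisymm
    · refine hcard.trans ?_
      rw [hk𝔠]
      exact max_le le_rfl Cardinal.aleph0_le_continuum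
    · rw [← hk𝔠]
      exact Cardinal.mk_le_of_injective a.injective
  -- generators of the ideal
  let I : Ideal (MvPolynomial (Fin n ⊕ Fin n) k) :=
    RingHom.ker (aeval (Sum.elim x' y') : MvPolynomial (Fin n ⊕ Fin n) k →ₐ[k] AlgebraicClosure Ω)
  have hI : I.FG := IsNoetherian.noetherian I
  obtain ⟨s, hs⟩ := hI
  -- the countable subfield
  let A : Set k := ⋃ g ∈ s, (g.coeffs : Set k)
  have hA : A.Countable := by
    apply Set.Countable.biUnion s.countable_toSet
    intro g _
    exact g.coeffs.countable_toSet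
  let k₀ : Subfield k := Subfield.closure A
  have : Countable k₀ := by
    rw [← Cardinal.mk_le_aleph0_iff]
    refine (Subfield.cardinalMk_closure_le_max A).trans ?_
    exact max_le (Cardinal.mk_le_aleph0_iff.mpr hA.to_subtype) le_rfl
  obtain ⟨φ₁, hφ₁⟩ := h3 k₀ k₁ (a.comp k₀.subtype) ((φ : k →+* ℂ).comp k₀.subtype) hk1
  obtain ⟨z, hz⟩ := hF k₁ (AlgebraicClosure Ω) φ₁ x' y' hfr1 htr1 hntr1
  refine ⟨z, ?_⟩
  -- the generators vanish
  have hgen : ∀ g ∈ s, eval (ex z) (map (φ : k →+* ℂ) g) = 0 := by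
    intro g hg
    have hgI : g ∈ I := by
      rw [← hs]; exact Ideal.subset_span hg
    have hg0 : aeval (Sum.elim x' y') g = 0 := hgI
    have hg1 : aeval (Sum.elim x' y') (map a g) = (0 : AlgebraicClosure Ω) := by
      rw [← hg0, MvPolynomial.aeval_def, MvPolynomial.eval₂_map, MvPolynomial.aeval_def]
      congr 1
      ext c
      exact ha c
    have hg2 := hz (map a g) hg1
    rw [MvPolynomial.map_map] at hg2
    have hmap : map ((φ₁ : k₁ →+* ℂ).comp a) g = map (φ : k →+* ℂ) g := by
      ext m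
      rw [coeff_map, coeff_map]
      by_cases hm : coeff m g = 0
      · rw [hm, map_zero, map_zero]
      · have hmA : coeff m g ∈ A := by
          refine Set.mem_biUnion hg ?_
          exact MvPolynomial.coeff_mem_coeffs m hm
        have hmk : coeff m g ∈ k₀ := Subfield.subset_closure hmA
        exact hφ₁ ⟨coeff m g, hmk⟩
    rw [hmap] at hg2
    exact hg2
  -- all elements of the ideal vanish
  let J : Ideal (MvPolynomial (Fin n ⊕ Fin n) k) :=
    RingHom.ker ((eval (ex z)).comp (map (φ : k →+* ℂ)))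
  have hIJ : I ≤ J := by
    rw [← hs]
    apply Ideal.span_le.mpr
    intro g hg
    exact hgen g hg
  intro g hg
  have hgI : g ∈ I := by
    change aeval (Sum.elim x' y') g = 0
    rw [exy]
    have : aeval (fun i => f (Sum.elim x y i)) g = f (aeval (Sum.elim x y) g) := by
      rw [← MvPolynomial.comp_aeval_apply]
    rw [this, hg, map_zero]
  exact hIJ hgI

end Pool.Agent.H332.QK
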